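import Pool.Agent.helper35.SZ.CurlDefs

/-!
# MP_e07446_gt, module M4: circles of the curled diagram
-/

namespace Pool.Agent.helper35.SZ
open scoped Classical
open Finset
noncomputable section

/-- The position of a half-edge of the curled diagram: `inl h` if it is on the (old) circle through
`h`, `inr h` if it is on the small circle at `h`. -/
def pos (D : Diagram) (N : Finset D.H) : (curl D).H → D.H ⊕ D.H
  | Sum.inl (Sum.inl x, j) => Sum.inl (Sum.inl (x, j))
  | Sum.inr (y, j) => Sum.inl (Sum.inr (y, j))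
  | Sum.inl (Sum.inr h, j) => if (j = 2 ∨ j = 3) ∧ h ∉ N then Sum.inr h else Sum.inl h

section
variable (D : Diagram) (A : Finset D.X) (N : Finset D.H)

theorem circ_tau (D : Diagram) (A : Finset D.X) (h : D.H) : D.circ A (D.tau h) = D.circ A h :=
  (Quot.sound (r := fun a b : D.H => b = D.tau a ∨ b = D.res A a) (Or.inl rfl)).symm

theorem circ_res (D : Diagram) (A : Finset D.X) (h : D.H) : D.circ A (D.res A h) = D.circ A h :=
  (Quot.sound (r := fun a b : D.H => b = D.tau a ∨ b = D.res A a) (Or.inr rfl)).symm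

/-- The target of the invariant. -/
def phi (p : D.H ⊕ D.H) : D.Circ A ⊕ D.H := p.map (D.circ A) id

theorem phi_tau (a : (curl D).H) :
    phi D A (pos D N ((curl D).tau a)) = phi D A (pos D N a) := by
  rcases a with ⟨x | h, j⟩ | ⟨y, j⟩
  · simp [curl, curlTau, pos, phi]
  · fin_cases j
    · rcases h with ⟨x, j⟩ | ⟨y, j⟩ <;> simp [curl, curlTau, pos, phi, iotaAux]
    · simp [curl, curlTau, pos, phi, circ_tau]
    · simp [curl, curlTau, pos, phi]
    · simp [curl, curlTau, pos, phi]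
  · simp [curl, curlTau, pos, phi]

theorem ite_aux {p q : Prop} (dp : Decidable p) (dq : Decidable q) (h : p ↔ q) {α : Type}
    (a b : α) : @ite α p dp a b = @ite α q dq a b := by
  by_cases hp : p
  · rw [if_pos hp, if_pos (h.1 hp)]
  · rw [if_neg hp, if_neg (fun hq => hp (h.2 hq))]

theorem inl_mem_st (x : D.X) : (Sum.inl x : (curl D).X) ∈ st D A N ↔ x ∈ A :=
  Finset.inl_mem_disjSum (s := A) (t := N)

theorem inr_mem_st (h : D.H) : (Sum.inr h : (curl D).X) ∈ st D A N ↔ h ∈ N :=
  Finset.inr_mem_disjSum (s := A) (t := N)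

theorem res_iota (h : D.H) :
    (curl D).res (st D A N) (iota D h) = iota D (D.res A h) := by
  rcases h with ⟨x, j⟩ | ⟨y, j⟩
  · exact congrArg (fun i : Fin 4 => (Sum.inl (Sum.inl x, i) : (curl D).H))
      (ite_aux _ _ (inl_mem_st D A N x) _ _)
  · rfl

theorem res_kap (h : D.H) (j : Fin 4) :
    (curl D).res (st D A N) (kap D h j) =
      kap D h (if h ∈ N then ![3, 2, 1, 0] j else ![1, 0, 3, 2] j) := by
  exact congrArg (fun i : Fin 4 => kap D h i) (ite_aux _ _ (inr_mem_st D A N h) _ _)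

theorem pos_iota (h : D.H) : pos D N (iota D h) = Sum.inl h := by
  rcases h with ⟨x, j⟩ | ⟨y, j⟩ <;> rfl

theorem pos_kap (h : D.H) (j : Fin 4) :
    pos D N (kap D h j) = if (j = 2 ∨ j = 3) ∧ h ∉ N then Sum.inr h else Sum.inl h := rfl

theorem tau_iota (h : D.H) : (curl D).tau (iota D h) = kap D h 0 := by
  rcases h with ⟨x, j⟩ | ⟨y, j⟩ <;> rfl

theorem tau_kap1 (h : D.H) : (curl D).tau (kap D h 1) = kap D (D.tau h) 1 := rfl

theorem tau_kap2 (h : D.H) : (curl D).tau (kap D h 2) = kap D h 3 := rfl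

/-- every half-edge is `iota h` or `kap h j` -/
theorem cases_H (a : (curl D).H) : (∃ h, a = iota D h) ∨ ∃ h j, a = kap D h j := by
  rcases a with ⟨x | h, j⟩ | ⟨y, j⟩
  · exact Or.inl ⟨Sum.inl (x, j), rfl⟩
  · exact Or.inr ⟨h, j, rfl⟩
  · exact Or.inl ⟨Sum.inr (y, j), rfl⟩

theorem phi_res (a : (curl D).H) :
    phi D A (pos D N ((curl D).res (st D A N) a)) = phi D A (pos D N a) := by
  rcases cases_H D a with ⟨h, rfl⟩ | ⟨h, j, rfl⟩
  · rw [res_iota, pos_iota, pos_iota]
    simp [phi, circ_res]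
  · rw [res_kap, pos_kap, pos_kap]
    by_cases hN : h ∈ N
    · simp [hN]
    · fin_cases j <;> simp [hN]

/-- The invariant of circles. -/
def Phi : (curl D).Circ (st D A N) → D.Circ A ⊕ D.H :=
  Quot.lift (fun a => phi D A (pos D N a)) (by
    rintro a b (rfl | rfl)
    · exact (phi_tau D A N a).symm
    · exact (phi_res D A N a).symm)

theorem circ_kap0 (h : D.H) :
    (curl D).circ (st D A N) (kap D h 0) = (curl D).circ (st D A N) (iota D h) := by
  rw [← tau_iota, circ_tau]

theorem circ_kap3 (h : D.H) :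
    (curl D).circ (st D A N) (kap D h 3) = (curl D).circ (st D A N) (kap D h 2) := by
  rw [← tau_kap2, circ_tau]

theorem circ_kap2 {h : D.H} (hN : h ∈ N) :
    (curl D).circ (st D A N) (kap D h 2) = (curl D).circ (st D A N) (iota D h) := by
  rw [← circ_kap3, ← circ_kap0, ← circ_res _ _ (kap D h 3), res_kap, if_pos hN]
  rfl

theorem circ_kap1 (h : D.H) :
    (curl D).circ (st D A N) (kap D h 1) = (curl D).circ (st D A N) (iota D h) := by
  by_cases hN : h ∈ N
  · rw [← circ_kap2 D A N hN, ← circ_res _ _ (kap D h 1), res_kap, if_pos hN]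
    rfl
  · rw [← circ_kap0, ← circ_res _ _ (kap D h 1), res_kap, if_neg hN]
    rfl

theorem circ_of_pos_inl {a : (curl D).H} {h : D.H} (ha : pos D N a = Sum.inl h) :
    (curl D).circ (st D A N) a = (curl D).circ (st D A N) (iota D h) := by
  rcases cases_H D a with ⟨h', rfl⟩ | ⟨h', j, rfl⟩
  · rw [pos_iota] at ha
    rw [Sum.inl.inj ha]
  · rw [pos_kap] at ha
    split_ifs at ha with hc
    rw [← Sum.inl.inj ha]
    fin_cases j
    · exact circ_kap0 D A N h'
    · exact circ_kap1 D A N h'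
    · have hN : h' ∈ N := by
        by_contra hn
        exact hc ⟨Or.inl rfl, hn⟩
      exact circ_kap2 D A N hN
    · have hN : h' ∈ N := by
        by_contra hn
        exact hc ⟨Or.inr rfl, hn⟩
      exact (circ_kap3 D A N h').trans (circ_kap2 D A N hN)

theorem circ_of_pos_inr {a : (curl D).H} {h : D.H} (ha : pos D N a = Sum.inr h) :
    h ∉ N ∧ (curl D).circ (st D A N) a = (curl D).circ (st D A N) (kap D h 2) := by
  rcases cases_H D a with ⟨h', rfl⟩ | ⟨h', j, rfl⟩
  · rw [pos_iota] at ha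
    cases ha
  · rw [pos_kap] at ha
    split_ifs at ha with hc
    obtain ⟨hj, hN⟩ := hc
    rw [Sum.inr.injEq] at ha
    subst ha
    refine ⟨hN, ?_⟩
    rcases hj with rfl | rfl
    · rfl
    · exact circ_kap3 D A N h'

theorem circ_iota_of_eq {h h' : D.H} (e : D.circ A h = D.circ A h') :
    (curl D).circ (st D A N) (iota D h) = (curl D).circ (st D A N) (iota D h') := by
  have h1 := Quot.eqvGen_exact e
  induction h1 with
  | rel a b hab =>
    rcases hab with rfl | rfl
    · rw [← circ_kap1 D A N a, ← circ_kap1 D A N (D.tau a), ← tau_kap1, circ_tau]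
    · rw [← res_iota D A N, circ_res]
  | refl a => rfl
  | symm a b _ ih => exact (ih (Quot.eqvGen_sound ‹_›)).symm
  | trans a b c _ _ ih1 ih2 =>
    exact (ih1 (Quot.eqvGen_sound ‹_›)).trans (ih2 (Quot.eqvGen_sound ‹_›))

end

theorem M4_circ_eq (D : Diagram) (A : Finset D.X) (N : Finset D.H) (a b : (curl D).H) :
    (curl D).circ (st D A N) a = (curl D).circ (st D A N) b ↔
      (∃ h h', pos D N a = Sum.inl h ∧ pos D N b = Sum.inl h' ∧ D.circ A h = D.circ A h') ∨
      (∃ h, pos D N a = Sum.inr h ∧ pos D N b = Sum.inr h) := by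
  constructor
  · intro e
    have h1 : phi D A (pos D N a) = phi D A (pos D N b) := congrArg (Phi D A N) e
    rcases ha : pos D N a with h | h <;> rcases hb : pos D N b with h' | h' <;>
      rw [ha, hb] at h1 <;> simp [phi] at h1
    · exact Or.inl ⟨h, h', rfl, rfl, h1⟩
    · exact Or.inr ⟨h, rfl, by rw [h1]⟩
  · rintro (⟨h, h', ha, hb, e⟩ | ⟨h, ha, hb⟩)
    · rw [circ_of_pos_inl D A N ha, circ_of_pos_inl D A N hb]
      exact circ_iota_of_eq D A N e
    · rw [(circ_of_pos_inr D A N ha).2, (circ_of_pos_inr D A N hb).2]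

/-- The circles of the curled diagram. -/
def Psi (D : Diagram) (A : Finset D.X) (N : Finset D.H) :
    D.Circ A ⊕ D.H → (curl D).Circ (st D A N) :=
  Sum.elim (Quot.lift (fun h => (curl D).circ (st D A N) (iota D h)) (by
    rintro a b hab
    exact circ_iota_of_eq D A N (Quot.sound hab))) (fun h => (curl D).circ (st D A N) (kap D h 2))

theorem Psi_inl (D : Diagram) (A : Finset D.X) (N : Finset D.H) (h : D.H) :
    Psi D A N (Sum.inl (D.circ A h)) = (curl D).circ (st D A N) (iota D h) := rfl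

theorem Psi_inr (D : Diagram) (A : Finset D.X) (N : Finset D.H) (h : D.H) :
    Psi D A N (Sum.inr h) = (curl D).circ (st D A N) (kap D h 2) := rfl

theorem pos_kap2 (D : Diagram) (N : Finset D.H) {h : D.H} (hN : h ∉ N) :
    pos D N (kap D h 2) = Sum.inr h := by
  rw [pos_kap, if_pos ⟨Or.inl rfl, hN⟩]

theorem Psi_inj (D : Diagram) (A : Finset D.X) (N : Finset D.H) {u v : D.Circ A ⊕ D.H}
    (hu : ∀ h, u = Sum.inr h → h ∉ N) (hv : ∀ h, v = Sum.inr h → h ∉ N)
    (e : Psi D A N u = Psi D A N v) : u = v := by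
  rcases u with c | h <;> rcases v with c' | h'
  · induction c using Quot.ind with | mk a => ?_
    induction c' using Quot.ind with | mk b => ?_
    have := (M4_circ_eq D A N _ _).1 e
    rw [pos_iota, pos_iota] at this
    rcases this with ⟨h, h', e1, e2, e3⟩ | ⟨h, e1, e2⟩
    · rw [Sum.inl.injEq] at e1 e2
      subst e1 e2
      exact congrArg Sum.inl e3
    · cases e1
  · induction c using Quot.ind with | mk a => ?_
    have := (M4_circ_eq D A N _ _).1 e
    rw [pos_iota, pos_kap2 D N (hv _ rfl)] at this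
    rcases this with ⟨h, h', e1, e2, e3⟩ | ⟨h, e1, e2⟩
    · cases e2
    · cases e1
  · induction c' using Quot.ind with | mk b => ?_
    have := (M4_circ_eq D A N _ _).1 e
    rw [pos_iota, pos_kap2 D N (hu _ rfl)] at this
    rcases this with ⟨h, h', e1, e2, e3⟩ | ⟨h, e1, e2⟩
    · cases e1
    · cases e2
  · have := (M4_circ_eq D A N _ _).1 e
    rw [pos_kap2 D N (hu _ rfl), pos_kap2 D N (hv _ rfl)] at this
    rcases this with ⟨h, h', e1, e2, e3⟩ | ⟨h, e1, e2⟩
    · cases e1
    · rw [Sum.inr.injEq] at e1 e2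
      rw [e1, e2]

theorem mem_disj {D : Diagram} {A : Finset D.X} {N : Finset D.H} {s : Finset (D.Circ A)}
    {u : D.Circ A ⊕ D.H} (hu : u ∈ s.disjSum Nᶜ) : ∀ h, u = Sum.inr h → h ∉ N := by
  rintro h rfl
  simpa using hu

theorem Psi_injOn (D : Diagram) (A : Finset D.X) (N : Finset D.H) (s : Finset (D.Circ A)) :
    Set.InjOn (Psi D A N) (s.disjSum Nᶜ : Finset (D.Circ A ⊕ D.H)) := by
  intro u hu v hv e
  exact Psi_inj D A N (mem_disj (mem_coe.1 hu)) (mem_disj (mem_coe.1 hv)) e

theorem M4_card (D : Diagram) (A : Finset D.X) (N : Finset D.H) :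
    Fintype.card ((curl D).Circ (st D A N)) = Fintype.card (D.Circ A) + (Nᶜ).card := by
  have h1 : (univ : Finset ((curl D).Circ (st D A N))) =
      ((univ : Finset (D.Circ A)).disjSum Nᶜ).image (Psi D A N) := by
    ext c
    simp only [mem_univ, mem_image, true_iff]
    induction c using Quot.ind with | mk a => ?_
    rcases ha : pos D N a with h | h
    · exact ⟨Sum.inl (D.circ A h), by simp, (circ_of_pos_inl D A N ha).symm⟩
    · obtain ⟨hN, e⟩ := circ_of_pos_inr D A N ha
      exact ⟨Sum.inr h, by simp [hN], e.symm⟩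
  rw [← card_univ, h1, card_image_of_injOn (Psi_injOn D A N univ), card_disjSum, card_univ]

theorem mem_lift2 (D : Diagram) (N : Finset D.H) (g : D.Gen)
    (c : (curl D).Circ (st D g.1 N)) : c ∈ (lift D N g).2 ↔
    ((∃ h, D.circ g.1 h ∈ g.2 ∧ c = (curl D).circ (st D g.1 N) (iota D h)) ∨
    (∃ h, h ∉ N ∧ c = (curl D).circ (st D g.1 N) (kap D h 2))) := by
  unfold lift
  exact Finset.mem_filter.trans (and_iff_right (Finset.mem_univ _))

theorem M4_mem_lift (D : Diagram) (N : Finset D.H) (g : D.Gen) (a : (curl D).H) :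
    (curl D).circ (st D g.1 N) a ∈ (lift D N g).2 ↔
      (∃ h, pos D N a = Sum.inl h ∧ D.circ g.1 h ∈ g.2) ∨ (∃ h, pos D N a = Sum.inr h) := by
  rw [mem_lift2]
  constructor
  · rintro (⟨h, hg, e⟩ | ⟨h, hN, e⟩)
    · have := (M4_circ_eq D g.1 N _ _).1 e
      rw [pos_iota] at this
      rcases this with ⟨h1, h2, e1, e2, e3⟩ | ⟨h1, e1, e2⟩
      · rw [Sum.inl.injEq] at e2
        subst e2
        exact Or.inl ⟨h1, e1, by rw [e3]; exact hg⟩
      · exact Or.inr ⟨h1, e1⟩
    · have := (M4_circ_eq D g.1 N _ _).1 e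
      rw [pos_kap2 D N hN] at this
      rcases this with ⟨h1, h2, e1, e2, e3⟩ | ⟨h1, e1, e2⟩
      · cases e2
      · exact Or.inr ⟨h1, e1⟩
  · rintro (⟨h, e, hg⟩ | ⟨h, e⟩)
    · exact Or.inl ⟨h, hg, circ_of_pos_inl D g.1 N e⟩
    · obtain ⟨hN, e'⟩ := circ_of_pos_inr D g.1 N e
      exact Or.inr ⟨h, hN, e'⟩

theorem M4_lift_card (D : Diagram) (N : Finset D.H) (g : D.Gen) :
    (lift D N g).2.card = g.2.card + (Nᶜ).card := by
  have h1 : ∀ s : Finset ((curl D).Circ (st D g.1 N)), (∀ c, c ∈ s ↔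
      ((∃ h, D.circ g.1 h ∈ g.2 ∧ c = (curl D).circ (st D g.1 N) (iota D h)) ∨
      (∃ h, h ∉ N ∧ c = (curl D).circ (st D g.1 N) (kap D h 2)))) →
      s.card = g.2.card + (Nᶜ).card := by
    intro s hs
    have h2 : s = (g.2.disjSum Nᶜ).image (Psi D g.1 N) := by
      ext c
      rw [hs, mem_image]
      constructor
      · rintro (⟨h, hg, e⟩ | ⟨h, hN, e⟩)
        · exact ⟨Sum.inl (D.circ g.1 h), by simpa using hg, e.symm⟩
        · exact ⟨Sum.inr h, by simpa using hN, e.symm⟩
      · rintro ⟨u, hu, rfl⟩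
        rcases u with c | h
        · induction c using Quot.ind with | mk a => ?_
          exact Or.inl ⟨a, Finset.inl_mem_disjSum.1 hu, rfl⟩
        · exact Or.inr ⟨h, by simpa using hu, rfl⟩
    rw [h2, card_image_of_injOn (Psi_injOn D g.1 N g.2), card_disjSum]
  exact h1 _ (mem_lift2 D N g)

end
end Pool.Agent.helper35.SZ
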